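import Pool.Agent.Lib.MP_381773_ag.UA3
import Pool.Agent.Lib.MP_381773_ag.NotTwo
import Pool.Agent.Lib.MP_381773_ag.Newton3
import Pool.Agent.Lib.MP_381773_ag.ExtSq

/-!
# MP_381773_ag, Q1: the isogeny type of `U_A` is not determined by `ν` and `a(A) = 1`

For every prime `p` and every algebraically closed field `k` of characteristic `p` there are two
Dieudonne modules `M`, `M'` of rank `12` (the case `g = 6`) with the same Newton polygon, slopes
`1/3` and `2/3` with multiplicity `6` each, both with `a`-number `1`, such that the groups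
`U_{∧² M}` and `U_{∧² M'}` are not isogenous.

`M` is generated by `e` with `(F^6 + t F^3 + q + t V^3 + V^6) e = 0`, `t = p + p²`,
`q = p² + p³ + p⁴`; and `M'` by `e` with `(F^6 + q' + V^6) e = 0`, `q' = p² + p⁴`.
The group `U_{∧² M}` has two characters with values in `W_3` whose reductions are
algebraically independent, and `U_{∧² M'}` has not.

The definitions are in `Pool.Agent.Lib.MP_381773_ag.Defs` and
`Pool.Agent.Lib.MP_381773_ag.ExtSq`.
-/

set_option autoImplicit false

universe u

namespace Pool.Agent.Results.MP_381773_ag.NotIsogenous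

open Pool.Agent.UA

theorem result (p : ℕ) [Fact p.Prime] (k : Type u) [Field k] [IsAlgClosed k] [CharP k p] :
    ∃ ν : ℚ →₀ ℕ, ν = Finsupp.single (1 / 3) 6 + Finsupp.single (2 / 3) 6 ∧
      IsAbelianNewtonPolygon 6 ν ∧
      ∃ M M' : DieudonneModule p k,
        M.rank = 2 * 6 ∧ M.HasNewtonPolygon ν ∧ M.aNumber = 1 ∧
        M'.rank = 2 * 6 ∧ M'.HasNewtonPolygon ν ∧ M'.aNumber = 1 ∧
        ∃ L L' : FCrystal p k, IsExteriorSquare M L ∧ IsExteriorSquare M' L' ∧
          ¬ Isogenous (U L) (U L') := by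
  refine ⟨_, rfl, abelian_np, modM p k (tA p) (qA p), modM p k 0 (qB p), modM_rank _ _, np_A,
    modM_aNumber _ _ ?_, modM_rank _ _, np_B, modM_aNumber _ _ ?_, wedgeSq _, wedgeSq _,
    isExteriorSquare_wedgeSq _, isExteriorSquare_wedgeSq _, ?_⟩
  · exact ⟨p + p ^ 2 + p ^ 3, by unfold qA; ring⟩
  · exact ⟨p * (1 + p ^ 2), by unfold qB; ring⟩
  · intro h
    exact not_hasTwo_UB ((hasTwo_iff_of_isogenous (p := p) h).mp hasTwo_UA)

end Pool.Agent.Results.MP_381773_ag.NotIsogenous
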